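import Pool.Agent.Q280.ML.EllC

/-!
# Elliptic Schanuel: enlarging spaces without decreasing the defect
-/

set_option autoImplicit false

open Matroid Set Module
open scoped PeriodPair ComplexConjugate

noncomputable section

namespace Pool.Agent.Q257.RF

open H667R3 Pool.Agent.W245.EB Pool.Agent.TH813.Ell
open Pool.Agent.TH813.Core
open Pool.Agent.TH813.Rel (rk_le_of_subset_cl subset_cl)
open Pool.Agent.Y776.Et (ζ)
open Pool.Agent.Q280.ML
open Q88.ETO (M cj cj_apply bar mem_bar fin_bar finrank_bar cl_mono cl_alg cl_of_isAlgebraic toK mem_toK fin_toK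
  clK mem_clK finrank_add_span sup_span_of_mem exists_algebraic_notMem)

variable {L : PeriodPair}

/-- the defect `2 dim V - trdeg (V)` of a space -/
def df (V : Submodule (kL L) ℂ) : ℤ := LSys.dfc (A := EllSys L) V

theorem df_def (V : Submodule (kL L) ℂ) :
    df V = ((2 * finrank (kL L) V : ℕ) : ℤ) - ((M.eRk (Nums L V)).toNat : ℤ) := rfl

theorem coe_rk {V : Submodule (kL L) ℂ} (hV : FiniteDimensional (kL L) V) :
    (((M.eRk (Nums L V)).toNat : ℕ) : ℕ∞) = M.eRk (Nums L V) := ENat.natCast_toNat (Nums_rk hV)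

theorem df_le_iff {V : Submodule (kL L) ℂ} (hV : FiniteDimensional (kL L) V) (C : ℕ) :
    df V ≤ C ↔ ((2 * finrank (kL L) V : ℕ) : ℕ∞) ≤ M.eRk (Nums L V) + C := by
  rw [← coe_rk hV, df_def]
  constructor
  · intro h
    have h1 : 2 * finrank (kL L) V ≤ (M.eRk (Nums L V)).toNat + C := by omega
    exact_mod_cast h1
  · intro h
    have h1 : 2 * finrank (kL L) V ≤ (M.eRk (Nums L V)).toNat + C := by exact_mod_cast h
    omega

theorem Nums_add {V : Submodule (kL L) ℂ} {x : ℂ} (hxL : x ∉ L.lattice) {X : Set ℂ} (h : Nums L V ⊆ M.closure X)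
    (h1 : x ∈ M.closure X) (h2 : ℘[L] x ∈ M.closure X) (h3 : ζ L x ∈ M.closure X) :
    Nums L (V ⊔ Submodule.span (kL L) {x} : Submodule (kL L) ℂ) ⊆ M.closure X := by
  have hp : ∀ i : Fin 1, (fun _ : Fin 1 => x) i ∉ L.lattice := fun _ => hxL
  have h4 := Nums_span (L := L) hp
  have h5 : range (fun _ : Fin 1 => x) = {x} := range_const
  rw [h5] at h4
  refine (Nums_sup _ _).trans ?_
  refine M.closure_subset_closure_of_subset_closure (union_subset h (h4.trans ?_))
  refine M.closure_subset_closure_of_subset_closure (union_subset ?_ ?_)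
  · intro y hy
    obtain ⟨i, rfl | rfl | hy⟩ := mem_iUnion.mp hy
    · exact h1
    · exact h2
    · rw [mem_singleton_iff.mp hy]
      exact h3
  · exact (Nums_mono (SetLike.coe_subset_coe.mpr bot_le)).trans h

/-- adding a number -/
theorem step {V : Submodule (kL L) ℂ} (hV : FiniteDimensional (kL L) V) {x : ℂ} (hxL : x ∉ L.lattice)
    (hx : x ∈ M.closure (Nums L V) ∨ ℘[L] x ∈ M.closure (insert x (Nums L V)) ∨
      ζ L x ∈ M.closure (insert x (insert (℘[L] x) (Nums L V)))) :
    df V ≤ df (V ⊔ Submodule.span (kL L) {x}) := by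
  by_cases hxV : x ∈ V
  · rw [sup_span_of_mem hxV]
  have hf : FiniteDimensional (kL L) (V ⊔ Submodule.span (kL L) {x} : Submodule (kL L) ℂ) :=
    Submodule.finiteDimensional_sup _ _
  have key : ∃ y z : ℂ, Nums L (V ⊔ Submodule.span (kL L) {x} : Submodule (kL L) ℂ) ⊆
      M.closure (insert y (insert z (Nums L V))) := by
    have hin : ∀ y z : ℂ, Nums L V ⊆ insert y (insert z (Nums L V)) := fun y z =>
      (Set.subset_insert _ _).trans (Set.subset_insert _ _)
    rcases hx with hx | hx | hx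
    · exact ⟨℘[L] x, ζ L x, Nums_add hxL ((hin _ _).trans (subset_cl _)) (cl_mono (hin _ _) hx)
        (subset_cl _ (Set.mem_insert _ _)) (subset_cl _ (Or.inr (Set.mem_insert _ _)))⟩
    · exact ⟨x, ζ L x, Nums_add hxL ((hin _ _).trans (subset_cl _)) (subset_cl _ (Set.mem_insert _ _))
        (cl_mono (Set.insert_subset_insert (Set.subset_insert _ _)) hx)
        (subset_cl _ (Or.inr (Set.mem_insert _ _)))⟩
    · exact ⟨x, ℘[L] x, Nums_add hxL ((hin _ _).trans (subset_cl _)) (subset_cl _ (Set.mem_insert _ _))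
        (subset_cl _ (Or.inr (Set.mem_insert _ _))) hx⟩
  obtain ⟨y, z, hy⟩ := key
  have h1 : M.eRk (Nums L (V ⊔ Submodule.span (kL L) {x} : Submodule (kL L) ℂ)) ≤ M.eRk (Nums L V) + 1 + 1 :=
    (rk_le_of_subset_cl hy).trans
      ((M.eRk_insert_le_add_one _ _).trans (add_le_add_left (M.eRk_insert_le_add_one _ _) _))
  rw [← coe_rk hf, ← coe_rk hV] at h1
  have h2 : (M.eRk (Nums L (V ⊔ Submodule.span (kL L) {x} : Submodule (kL L) ℂ))).toNat ≤
      (M.eRk (Nums L V)).toNat + 1 + 1 := by exact_mod_cast h1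
  have h3 := finrank_add_span V hxV
  rw [df_def, df_def, h3]
  omega

/-- adding numbers algebraic over the numbers of the space -/
theorem absorb {V V' : Submodule (kL L) ℂ} (hV : FiniteDimensional (kL L) V) (hV' : FiniteDimensional (kL L) V')
    (h : V ≤ V') (hc : (V' : Set ℂ) ⊆ M.closure (Nums L V)) : df V ≤ df V' := by
  classical
  obtain ⟨p, h1, h2, h3⟩ := exists_basis_off (L := L) V'
  have key : ∀ u : Finset (Fin (finrank (kL L) V')), FiniteDimensional (kL L)
      (V ⊔ Submodule.span (kL L) (p '' u) : Submodule (kL L) ℂ) ∧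
      df V ≤ df (V ⊔ Submodule.span (kL L) (p '' u)) := by
    intro u
    induction u using Finset.induction_on with
    | empty =>
      have e0 : V ⊔ Submodule.span (kL L) (p '' ((∅ : Finset (Fin (finrank (kL L) V'))) : Set _)) = V := by
        rw [Finset.coe_empty, image_empty, Submodule.span_empty, sup_bot_eq]
      rw [e0]
      exact ⟨hV, le_rfl⟩
    | insert a u ha ih =>
      obtain ⟨ih1, ih2⟩ := ih
      have e1 : V ⊔ Submodule.span (kL L) (p '' (insert a u : Finset _)) =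
          (V ⊔ Submodule.span (kL L) (p '' u)) ⊔ Submodule.span (kL L) {p a} := by
        rw [Finset.coe_insert, image_insert_eq, Submodule.span_insert, sup_comm (Submodule.span _ {p a}), sup_assoc]
      rw [e1]
      refine ⟨Submodule.finiteDimensional_sup _ _, ih2.trans (step ih1 (h3 a) (Or.inl ?_))⟩
      refine cl_mono (Nums_mono (SetLike.coe_subset_coe.mpr le_sup_left)) (hc (h2 a))
  have h4 := (key Finset.univ).2
  rw [Finset.coe_univ, image_univ, span_eq hV' h1 h2, sup_eq_right.mpr h] at h4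
  exact h4

/-- The smallest set of complex numbers which contains `x` (not in the lattice) as soon as, for some finite subset `F`
of it and the field `E` generated by `g₂`, `g₃` and by `v`, `ζ(v)`, `℘(v)` with `v` in `F`: `x` is algebraic over `E`,
or `℘(x)` is algebraic over `E(x)`, or `ζ(x)` is algebraic over `E(x, ℘(x))`. -/
inductive ClosedForm (L : PeriodPair) : ℂ → Prop
  | intro (F : Finset ℂ) (x : ℂ) (hF : ∀ y ∈ F, ClosedForm L y) (hxL : x ∉ L.lattice)
      (hx : IsAlgebraic (IntermediateField.adjoin ℚ (Nums L F)) x ∨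
        IsAlgebraic (IntermediateField.adjoin ℚ (insert x (Nums L F))) (℘[L] x) ∨
        IsAlgebraic (IntermediateField.adjoin ℚ (insert x (insert (℘[L] x) (Nums L F)))) (ζ L x)) : ClosedForm L x

theorem absorb_closedForm {x : ℂ} (hx : ClosedForm L x) :
    ∀ (V : Submodule (kL L) ℂ), FiniteDimensional (kL L) V →
      ∃ V' : Submodule (kL L) ℂ, V ≤ V' ∧ FiniteDimensional (kL L) V' ∧ df V ≤ df V' ∧ x ∈ V' := by
  classical
  induction hx with
  | intro F x hF hxL hx ih =>
    intro V hV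
    have key : ∀ E : Finset ℂ, (∀ y ∈ E, y ∈ F) → ∃ V' : Submodule (kL L) ℂ, V ≤ V' ∧
        FiniteDimensional (kL L) V' ∧ df V ≤ df V' ∧ (E : Set ℂ) ⊆ V' := by
      intro E
      induction E using Finset.induction_on with
      | empty => intro _; exact ⟨V, le_rfl, hV, le_rfl, by simp⟩
      | insert a E _ ihE =>
        intro hE
        obtain ⟨V₁, h1, h2, h3, h4⟩ := ihE (fun y hy => hE y (Finset.mem_insert_of_mem hy))
        obtain ⟨V₂, g1, g2, g3, g4⟩ := ih a (hE a (Finset.mem_insert_self _ _)) V₁ h2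
        refine ⟨V₂, h1.trans g1, g2, h3.trans g3, ?_⟩
        rw [Finset.coe_insert]
        exact Set.insert_subset g4 (h4.trans g1)
    obtain ⟨V₁, h1, h2, h3, h4⟩ := key F (fun y hy => hy)
    have hsub : Nums L F ⊆ Nums L V₁ := Nums_mono h4
    refine ⟨V₁ ⊔ Submodule.span (kL L) {x}, h1.trans le_sup_left, Submodule.finiteDimensional_sup _ _,
      h3.trans (step h2 hxL ?_), Submodule.mem_sup_right (Submodule.mem_span_singleton_self x)⟩
    rcases hx with hx | hx | hx
    · exact Or.inl (cl_mono hsub (cl_of_isAlgebraic hx))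
    · exact Or.inr (Or.inl (cl_mono (Set.insert_subset_insert hsub) (cl_of_isAlgebraic hx)))
    · exact Or.inr (Or.inr (cl_mono (Set.insert_subset_insert (Set.insert_subset_insert hsub))
        (cl_of_isAlgebraic hx)))

theorem absorb_finset (S : Finset ℂ) (hS : ∀ x ∈ S, ClosedForm L x) {V : Submodule (kL L) ℂ}
    (hV : FiniteDimensional (kL L) V) : ∃ V' : Submodule (kL L) ℂ, V ≤ V' ∧ FiniteDimensional (kL L) V' ∧
      df V ≤ df V' ∧ (S : Set ℂ) ⊆ V' := by
  classical
  induction S using Finset.induction_on with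
  | empty => exact ⟨V, le_rfl, hV, le_rfl, by simp⟩
  | insert a E _ ihE =>
    obtain ⟨V₁, h1, h2, h3, h4⟩ := ihE (fun y hy => hS y (Finset.mem_insert_of_mem hy))
    obtain ⟨V₂, g1, g2, g3, g4⟩ := absorb_closedForm (hS a (Finset.mem_insert_self _ _)) V₁ h2
    refine ⟨V₂, h1.trans g1, g2, h3.trans g3, ?_⟩
    rw [Finset.coe_insert]
    exact Set.insert_subset g4 (h4.trans g1)

variable {K : IntermediateField ℚ ℂ} [FiniteDimensional ℚ K]

theorem df_toK_mono (hK : kL L ≤ K) {V W : Submodule K ℂ} (hV : FiniteDimensional K V) (hW : FiniteDimensional K W)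
    (h : V ≤ W) (hc : (W : Set ℂ) ⊆ M.closure (Nums L V)) : df (toK hK V) ≤ df (toK hK W) :=
  absorb (fin_toK V hK) (fin_toK W hK) (fun _ hx => h hx) hc

/-- from a space over `k` to a space over `K` -/
theorem exists_space (hK : kL L ≤ K) (S : Finset ℂ) (hS : ∀ x ∈ S, ClosedForm L x) {V₀ : Submodule (kL L) ℂ}
    (hV₀ : FiniteDimensional (kL L) V₀) : ∃ V : Submodule K ℂ, FiniteDimensional K V ∧ (S : Set ℂ) ⊆ V ∧
      df V₀ ≤ df (toK hK V) := by
  obtain ⟨V₁, h1, h2, h3, h4⟩ := absorb_finset S hS hV₀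
  obtain ⟨p, hp⟩ : V₁.FG := Module.Finite.iff_fg.mp inferInstance
  have hfin : FiniteDimensional K (Submodule.span K (p : Set ℂ)) :=
    FiniteDimensional.span_of_finite K p.finite_toSet
  have hle : V₁ ≤ toK hK (Submodule.span K (p : Set ℂ)) := by
    rw [← hp, Submodule.span_le]
    intro x hx
    exact Submodule.subset_span (s := (p : Set ℂ)) (R := K) hx
  have hcl : Submodule.span K (p : Set ℂ) ≤ clK K (Nums L V₁) := by
    rw [Submodule.span_le]
    intro x hx
    refine subset_cl _ (Or.inr (Or.inl ?_))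
    rw [← hp]
    exact Submodule.subset_span hx
  exact ⟨Submodule.span K (p : Set ℂ), hfin, fun x hx => hle (h4 hx),
    h3.trans (absorb h2 (fin_toK _ hK) hle fun x hx => hcl hx)⟩

omit [FiniteDimensional ℚ K] in
theorem fd_sup_real (V : Submodule K ℂ) (hV : FiniteDimensional K V) (x : ℂ) :
    FiniteDimensional K (V ⊔ Submodule.span K {x} : Submodule K ℂ) := Submodule.finiteDimensional_sup _ _

theorem enlarge (hK : kL L ≤ K) (C : Submodule K ℂ → Prop)
    (hC : ∀ (V : Submodule K ℂ) (x : ℝ), C V → C (V ⊔ Submodule.span K {(x : ℂ)}))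
    {V : Submodule K ℂ} (hfin : FiniteDimensional K V) (hCV : C V) (m : ℕ) (hm : finrank K V ≤ m) :
    ∃ W : Submodule K ℂ, FiniteDimensional K W ∧ V ≤ W ∧ df (toK hK V) ≤ df (toK hK W) ∧ C W ∧
      finrank K W = m := by
  induction m, hm using Nat.le_induction with
  | base => exact ⟨V, hfin, le_rfl, le_rfl, hCV, rfl⟩
  | succ m hm ih =>
    obtain ⟨W, h1, h2, h3, h4, h5⟩ := ih
    obtain ⟨x, hx, hxW⟩ := exists_algebraic_notMem W
    have hfd := fd_sup_real W h1 (x : ℂ)
    have hle : W ≤ W ⊔ Submodule.span K {(x : ℂ)} := le_sup_left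
    have h6 : W ⊔ Submodule.span K {(x : ℂ)} ≤ clK K (Nums L W) := by
      refine sup_le (fun y hy => subset_cl _ (Or.inr (Or.inl hy))) ?_
      rw [Submodule.span_singleton_le_iff_mem]
      exact cl_alg hx
    refine ⟨W ⊔ Submodule.span K {(x : ℂ)}, hfd, h2.trans hle,
      h3.trans (df_toK_mono hK h1 hfd hle fun y hy => h6 hy), hC _ _ h4, ?_⟩
    rw [finrank_add_span W hxW, h5]

/-- **Spaces over `K`**, for any lattice. -/
theorem main_space (hK : kL L ≤ K) (S : Finset ℂ) (hS : ∀ x ∈ S, ClosedForm L x) (D : Set ℕ) (hD : D.Infinite)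
    (C : ℤ) : (∀ V : Submodule (kL L) ℂ, FiniteDimensional (kL L) V → df V ≤ C) ↔
      ∀ V : Submodule K ℂ, FiniteDimensional K V → finrank K V ∈ D → (S : Set ℂ) ⊆ V → df (toK hK V) ≤ C := by
  constructor
  · intro h V hV _ _
    exact h _ (fin_toK V hK)
  · intro h V₀ hV₀
    obtain ⟨V, h1, h2, h3⟩ := exists_space hK S hS hV₀
    obtain ⟨m, hm, hm'⟩ := hD.exists_gt (finrank K V)
    obtain ⟨W, g1, g2, g3, _, g4⟩ := enlarge hK (fun _ => True) (fun _ _ _ => trivial) h1 trivial m hm'.le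
    exact (h3.trans g3).trans (h W g1 (g4 ▸ hm) fun x hx => g2 (h2 hx))

theorem df_bar (hK : kL L ≤ K) (hL : ∀ w ∈ L.lattice, conj w ∈ L.lattice) (hc : ∀ a ∈ K, conj a ∈ K)
    {V : Submodule K ℂ} (hV : FiniteDimensional K V) : df (toK hK (bar hc V)) = df (toK hK V) :=
  dfc_bar hL (fin_toK V hK)

theorem exists_stable (hK : kL L ≤ K) (hL : ∀ w ∈ L.lattice, conj w ∈ L.lattice)
    (hc : ∀ a ∈ K, conj a ∈ K) {V : Submodule K ℂ} (hV : FiniteDimensional K V) (C : ℤ)
    (h : C < df (toK hK V)) (S : Finset ℂ) (hS : ∀ x ∈ S, conj x ∈ S) (hSV : (S : Set ℂ) ⊆ V) :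
    ∃ W : Submodule K ℂ, FiniteDimensional K W ∧ C < df (toK hK W) ∧
      (∀ x ∈ W, conj x ∈ W) ∧ (S : Set ℂ) ⊆ W := by
  have hf := fin_bar hc V
  have hSV' : (S : Set ℂ) ⊆ bar hc V := fun x hx => hSV (hS x hx)
  have h1 := (LSys.sm (A := EllSys L)).sm (a := toK hK V) (b := toK hK (bar hc V)) (fin_toK V hK)
    (fin_toK (bar hc V) hK)
  change df (toK hK V) + df (toK hK (bar hc V)) ≤ df (toK hK V ⊓ toK hK (bar hc V)) +
    df (toK hK V ⊔ toK hK (bar hc V)) at h1
  rw [df_bar hK hL hc hV] at h1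
  have e2 : toK hK V ⊔ toK hK (bar hc V) = toK hK (V ⊔ bar hc V) := by
    ext x
    rw [mem_toK, Submodule.mem_sup, Submodule.mem_sup]
    rfl
  rw [e2] at h1
  rcases lt_or_ge C (df (toK hK V ⊓ toK hK (bar hc V))) with h2 | h2
  · refine ⟨V ⊓ bar hc V, Submodule.finiteDimensional_inf_left _ _, h2, ?_, Set.subset_inter hSV hSV'⟩
    rintro x ⟨hx, hx'⟩
    refine ⟨hx', ?_⟩
    change conj (conj x) ∈ V
    rw [Complex.conj_conj]
    exact hx
  · refine ⟨V ⊔ bar hc V, Submodule.finiteDimensional_sup _ _, by omega, ?_,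
      fun x hx => Submodule.mem_sup_left (hSV hx)⟩
    intro x hx
    obtain ⟨y, hy, z, hz, rfl⟩ := Submodule.mem_sup.1 hx
    rw [map_add, add_comm]
    refine Submodule.add_mem_sup hz ?_
    change conj (conj y) ∈ V
    rw [Complex.conj_conj]
    exact hy

/-- **Spaces stable under conjugation**, for a real lattice. -/
theorem main_stable (hK : kL L ≤ K) (hL : ∀ w ∈ L.lattice, conj w ∈ L.lattice)
    (hc : ∀ a ∈ K, conj a ∈ K) (S : Finset ℂ) (hS : ∀ x ∈ S, ClosedForm L x)
    (hSc : ∀ x ∈ S, conj x ∈ S) (D : Set ℕ) (hD : D.Infinite) (C : ℤ) :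
    (∀ V : Submodule (kL L) ℂ, FiniteDimensional (kL L) V → df V ≤ C) ↔
      ∀ V : Submodule K ℂ, FiniteDimensional K V → finrank K V ∈ D → (S : Set ℂ) ⊆ V →
        (∀ x ∈ V, conj x ∈ V) → df (toK hK V) ≤ C := by
  constructor
  · intro h V hV _ _ _
    exact h _ (fin_toK V hK)
  · intro h V₀ hV₀
    by_contra hcon
    rw [not_le] at hcon
    obtain ⟨V, h1, h2, h3⟩ := exists_space hK S hS hV₀
    obtain ⟨W, f1, f2, f3, f4⟩ := exists_stable hK hL hc h1 C (hcon.trans_le h3) S hSc h2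
    obtain ⟨m, hm, hm'⟩ := hD.exists_gt (finrank K W)
    obtain ⟨W', g1, g2, g3, g5, g4⟩ := enlarge hK (fun V => ∀ x ∈ V, conj x ∈ V)
      (fun V x hV y hy => by
        obtain ⟨a, ha, b, hb, rfl⟩ := Submodule.mem_sup.1 hy
        obtain ⟨c, rfl⟩ := Submodule.mem_span_singleton.1 hb
        rw [map_add]
        refine Submodule.add_mem_sup (hV a ha) ?_
        have h1 : conj (c • (x : ℂ)) = (⟨conj (c : ℂ), hc _ c.2⟩ : K) • (x : ℂ) := by
          change conj ((c : ℂ) * x) = conj (c : ℂ) * x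
          rw [map_mul, Complex.conj_ofReal]
        rw [h1]
        exact Submodule.smul_mem _ _ (Submodule.mem_span_singleton_self _)) f1 f3 m hm'.le
    have h7 := h W' g1 (g4 ▸ hm) (fun x hx => g2 (f4 hx)) g5
    omega

end Pool.Agent.Q257.RF
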