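import Pool.Agent.Q257.RF.A

/-!
# Elliptic Schanuel: tuples of real numbers
-/

set_option autoImplicit false

open Matroid Set Module
open scoped PeriodPair ComplexConjugate

noncomputable section

namespace Pool.Agent.Q257.RF

open H667R3 Pool.Agent.W245.EB Pool.Agent.TH813.Ell
open Pool.Agent.TH813.Core
open Pool.Agent.TH813.Rel (rk_le_of_subset_cl subset_cl)
open Pool.Agent.Y776.Et (ζ)
open Pool.Agent.Q280.ML
open Q88.ETO (M cj cj_apply bar mem_bar fin_bar finrank_bar cl_mono cl_alg cl_of_isAlgebraic toK mem_toK fin_toK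
  clK mem_clK finrank_add_span sup_span_of_mem exists_algebraic_notMem finrank_toK')

variable {L : PeriodPair}

/-- a nonzero real number has a rational multiple in a given open set -/
theorem exists_rat_mul {U : Set ℝ} (hU : IsOpen U) (hne : U.Nonempty) {r : ℝ} (hr : r ≠ 0) :
    ∃ q : ℚ, q ≠ 0 ∧ (q : ℝ) * r ∈ U := by
  obtain ⟨u, hu, hu0⟩ := (dense_compl_singleton (0 : ℝ)).inter_open_nonempty U hU hne
  have hT : IsOpen {t : ℝ | t * r ∈ U ∩ {0}ᶜ} :=
    (hU.inter isOpen_compl_singleton).preimage (continuous_id.mul continuous_const)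
  obtain ⟨q, hq⟩ := (Rat.denseRange_cast (𝕜 := ℝ)).exists_mem_open hT ⟨u / r, by
    change u / r * r ∈ U ∩ {0}ᶜ
    rw [div_mul_cancel₀ _ hr]
    exact ⟨hu, hu0⟩⟩
  refine ⟨q, ?_, hq.1⟩
  rintro rfl
  apply hq.2
  simp

theorem countable_lattice (L : PeriodPair) : (L.lattice : Set ℂ).Countable := by
  refine (Set.countable_range fun p : ℤ × ℤ => (p.1 : ℂ) * L.ω₁ + (p.2 : ℂ) * L.ω₂).mono ?_
  intro z hz
  obtain ⟨a, b, h⟩ := PeriodPair.mem_lattice.1 hz
  exact ⟨(a, b), h⟩

/-- the real numbers `t` with `t` and `i t` outside the lattice -/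
def Off (L : PeriodPair) : Set ℝ := {t | (t : ℂ) ∉ L.lattice ∧ Complex.I * (t : ℂ) ∉ L.lattice}

theorem isOpen_Off : IsOpen (Off L) := by
  have h1 : IsOpen {t : ℝ | (t : ℂ) ∉ L.lattice} :=
    (L.isClosed_lattice.isOpen_compl).preimage Complex.continuous_ofReal
  have h2 : IsOpen {t : ℝ | Complex.I * (t : ℂ) ∉ L.lattice} :=
    (L.isClosed_lattice.isOpen_compl).preimage (continuous_const.mul Complex.continuous_ofReal)
  exact h1.inter h2

theorem exists_off {U : Set ℝ} (hU : IsOpen U) (hne : U.Nonempty) : (U ∩ Off L).Nonempty := by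
  have h1 : ((fun t : ℝ => (t : ℂ)) ⁻¹' (L.lattice : Set ℂ)).Countable :=
    (countable_lattice L).preimage_of_injOn (Complex.ofReal_injective.injOn)
  have h2 : ((fun t : ℝ => Complex.I * (t : ℂ)) ⁻¹' (L.lattice : Set ℂ)).Countable := by
    refine (countable_lattice L).preimage_of_injOn (Function.Injective.injOn ?_)
    intro a b h
    exact Complex.ofReal_injective (mul_left_cancel₀ Complex.I_ne_zero h)
  obtain ⟨t, ht, ht'⟩ := ((h1.union h2).dense_compl ℝ).inter_open_nonempty U hU hne
  refine ⟨t, ht, fun h => ht' (Or.inl h), fun h => ht' (Or.inr h)⟩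

section

variable {K : IntermediateField ℚ ℂ}

/-- A space stable under conjugation has a basis of real numbers in a given open set. -/
theorem exists_real_basis (hc : ∀ a ∈ K, conj a ∈ K) {b : ℂ} (hb : b ∈ K) (hb' : conj b ≠ b)
    {V : Submodule K ℂ} (hV : FiniteDimensional K V) (hVc : ∀ x ∈ V, conj x ∈ V) {U : Set ℝ} (hU : IsOpen U)
    (hne : U.Nonempty) : ∃ x : Fin (finrank K V) → ℝ, (∀ j, x j ∈ U) ∧
      LinearIndependent K (fun j => (x j : ℂ)) ∧ Submodule.span K (range fun j => (x j : ℂ)) = V := by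
  classical
  set s : Set ℂ := {v | v ∈ V ∧ conj v = v} with hs
  have hspan : Submodule.span K s = V := by
    apply le_antisymm
    · rw [Submodule.span_le]
      exact fun v hv => hv.1
    · intro v hv
      have hβ : b - conj b ∈ K := K.sub_mem hb (hc b hb)
      have hβ0 : b - conj b ≠ 0 := sub_ne_zero.mpr (Ne.symm hb')
      have h1 : v + conj v ∈ s := ⟨V.add_mem hv (hVc v hv), by rw [map_add, Complex.conj_conj, add_comm]⟩
      have h2 : (b - conj b) * (v - conj v) ∈ s :=
        ⟨V.smul_mem (⟨b - conj b, hβ⟩ : K) (V.sub_mem hv (hVc v hv)), by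
          rw [map_mul, map_sub, map_sub, Complex.conj_conj, Complex.conj_conj]
          ring⟩
      have h3 : v = ((1 / 2 : ℚ) : K) • (v + conj v) +
          (((1 / 2 : ℚ) : K) * (⟨b - conj b, hβ⟩ : K)⁻¹) • ((b - conj b) * (v - conj v)) := by
        have e2 : (((1 / 2 : ℚ) : K) : ℂ) = 1 / 2 := by
          have : (((1 / 2 : ℚ) : K) : ℂ) = ((1 / 2 : ℚ) : ℂ) := map_ratCast (algebraMap K ℂ) (1 / 2)
          rw [this]
          norm_num
        change v = (((1 / 2 : ℚ) : K) : ℂ) * (v + conj v) +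
          ((((1 / 2 : ℚ) : K) : ℂ) * (b - conj b)⁻¹) * ((b - conj b) * (v - conj v))
        rw [e2]
        field_simp
        ring
      rw [h3]
      exact Submodule.add_mem _ (Submodule.smul_mem _ _ (Submodule.subset_span h1))
        (Submodule.smul_mem _ _ (Submodule.subset_span h2))
  obtain ⟨t, ht, htspan, hli⟩ := exists_linearIndependent K s
  have e1 : Submodule.span K (range ((↑) : t → ℂ)) = V := by
    rw [Subtype.range_coe, htspan, hspan]
  have hfin : FiniteDimensional K (Submodule.span K (range ((↑) : t → ℂ))) := by rw [e1]; exact hV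
  have hft : Finite t := Module.Finite.finite_basis (Basis.span hli)
  have : Fintype t := Fintype.ofFinite t
  have hcard : Fintype.card t = finrank K V := by
    rw [← Module.finrank_eq_card_basis (Basis.span hli), e1]
  let e : Fin (finrank K V) ≃ t := (Fintype.equivFinOfCardEq hcard).symm
  have hre : ∀ a : t, (((a : ℂ).re : ℝ) : ℂ) = a := fun a => Complex.conj_eq_iff_re.mp (ht a.2).2
  have hne0 : ∀ a : t, ((a : ℂ)).re ≠ 0 := by
    intro a h0
    apply hli.ne_zero a
    rw [← hre a, h0, Complex.ofReal_zero]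
  choose q hq0 hqU using fun a : t => exists_rat_mul hU hne (hne0 a)
  refine ⟨fun j => (q (e j) : ℝ) * ((e j : t) : ℂ).re, fun j => hqU _, ?_⟩
  have hli2 : LinearIndependent K fun j : Fin (finrank K V) =>
      ((((q (e j) : ℝ) * ((e j : t) : ℂ).re : ℝ)) : ℂ) := by
    have h5 := (hli.comp e e.injective).units_smul
      (fun j => Units.mk0 ((q (e j) : ℚ) : K) (by
        have := hq0 (e j)
        exact_mod_cast this))
    convert h5 using 1
    funext j
    rw [Pi.smul_apply']
    change _ = (((q (e j) : ℚ) : K) : ℂ) * ((e j : t) : ℂ)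
    push_cast
    rw [hre]
    norm_cast
  refine ⟨hli2, ?_⟩
  have hle : Submodule.span K (range fun j : Fin (finrank K V) =>
      ((((q (e j) : ℝ) * ((e j : t) : ℂ).re : ℝ)) : ℂ)) ≤ V := by
    rw [Submodule.span_le]
    rintro _ ⟨j, rfl⟩
    have h6 : ((((q (e j) : ℝ) * ((e j : t) : ℂ).re : ℝ)) : ℂ) = ((q (e j) : ℚ) : K) • ((e j : t) : ℂ) := by
      change _ = (((q (e j) : ℚ) : K) : ℂ) * ((e j : t) : ℂ)
      push_cast
      rw [hre]
    change ((((q (e j) : ℝ) * ((e j : t) : ℂ).re : ℝ)) : ℂ) ∈ V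
    rw [h6]
    exact V.smul_mem _ (ht (e j).2).1
  refine Submodule.eq_of_le_of_finrank_eq hle ?_
  rw [finrank_span_eq_card hli2, Fintype.card_fin]

/-- linear independence of real numbers over a quadratic field -/
theorem li_quad {c : ℂ} (hci : c.im ≠ 0) (hq : ∀ a ∈ K, ∃ p q : ℚ, a = p + q * c) {n : ℕ} (x : Fin n → ℝ) :
    LinearIndependent ℚ x ↔ LinearIndependent K (fun j => (x j : ℂ)) := by
  rw [Fintype.linearIndependent_iff, Fintype.linearIndependent_iff]
  constructor
  · intro h g hg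
    choose p q hpq using fun j => hq (g j) (g j).2
    have h1 : ∑ j, (((p j : ℝ) : ℂ) + ((q j : ℝ) : ℂ) * c) * ((x j : ℝ) : ℂ) = 0 := by
      rw [← hg]
      refine Finset.sum_congr rfl fun j _ => ?_
      change _ = (g j : ℂ) * ((x j : ℝ) : ℂ)
      rw [hpq j]
      norm_cast
    have h2 : ∑ j, (q j : ℝ) * x j = 0 := by
      have h3 := congrArg Complex.im h1
      rw [Complex.im_sum] at h3
      simp only [Complex.mul_im, Complex.add_re, Complex.ofReal_re, Complex.ofReal_im, mul_zero,
        Complex.add_im, Complex.mul_re, zero_mul, zero_add, add_zero, Complex.zero_im] at h3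
      have h4 : (∑ j, (q j : ℝ) * x j) * c.im = 0 := by
        rw [Finset.sum_mul, ← h3]
        refine Finset.sum_congr rfl fun j _ => ?_
        ring
      exact (mul_eq_zero.mp h4).resolve_right hci
    have h5 : ∀ j, q j = 0 := h q (by
      rw [← h2]
      refine Finset.sum_congr rfl fun j _ => ?_
      rw [Rat.smul_def])
    have h6 : ∀ j, p j = 0 := h p (by
      have h7 : ∑ j, ((p j : ℝ) : ℂ) * ((x j : ℝ) : ℂ) = 0 := by
        rw [← h1]
        refine Finset.sum_congr rfl fun j _ => ?_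
        rw [h5 j]
        simp
      have h8 : ((∑ j, p j • x j : ℝ) : ℂ) = 0 := by
        rw [← h7]
        push_cast
        refine Finset.sum_congr rfl fun j _ => ?_
        rw [Rat.smul_def]
      exact_mod_cast h8)
    intro j
    apply Subtype.ext
    rw [hpq j, h5 j, h6 j]
    simp
  · intro h g hg j
    have h1 := h (fun j => ((g j : ℚ) : K)) (by
      have h2 : ((∑ j, g j • x j : ℝ) : ℂ) = 0 := by rw [hg, Complex.ofReal_zero]
      rw [← h2]
      push_cast
      refine Finset.sum_congr rfl fun j _ => ?_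
      change (((g j : ℚ) : K) : ℂ) * ((x j : ℝ) : ℂ) = _
      rw [Rat.smul_def]
      push_cast
      rfl) j
    exact_mod_cast h1

/-- the span of real numbers over a quadratic field -/
theorem span_quad {c : ℂ} (hci : c.im ≠ 0) (hq : ∀ a ∈ K, ∃ p q : ℚ, a = p + q * c) {n : ℕ} (x : Fin n → ℝ)
    (hx : LinearIndependent ℚ x) (s : ℝ) :
    s ∈ Submodule.span ℚ (range x) ↔ (s : ℂ) ∈ Submodule.span K (range fun j => (x j : ℂ)) := by
  rw [Submodule.mem_span_range_iff_exists_fun, Submodule.mem_span_range_iff_exists_fun]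
  constructor
  · rintro ⟨g, hg⟩
    refine ⟨fun j => ((g j : ℚ) : K), ?_⟩
    rw [← hg]
    push_cast
    refine Finset.sum_congr rfl fun j _ => ?_
    change (((g j : ℚ) : K) : ℂ) * ((x j : ℝ) : ℂ) = _
    rw [Rat.smul_def]
    push_cast
    rfl
  · rintro ⟨g, hg⟩
    choose p q hpq using fun j => hq (g j) (g j).2
    have h1 : ∑ j, (((p j : ℝ) : ℂ) + ((q j : ℝ) : ℂ) * c) * ((x j : ℝ) : ℂ) = s := by
      rw [← hg]
      refine Finset.sum_congr rfl fun j _ => ?_
      change _ = (g j : ℂ) * ((x j : ℝ) : ℂ)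
      rw [hpq j]
      norm_cast
    have h2 : ∑ j, (q j : ℝ) * x j = 0 := by
      have h3 := congrArg Complex.im h1
      rw [Complex.im_sum] at h3
      simp only [Complex.mul_im, Complex.add_re, Complex.ofReal_re, Complex.ofReal_im, mul_zero,
        Complex.add_im, Complex.mul_re, zero_mul, zero_add, add_zero] at h3
      have h4 : (∑ j, (q j : ℝ) * x j) * c.im = 0 := by
        rw [Finset.sum_mul, ← h3]
        refine Finset.sum_congr rfl fun j _ => ?_
        ring
      exact (mul_eq_zero.mp h4).resolve_right hci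
    have h5 : ∀ j, q j = 0 := Fintype.linearIndependent_iff.mp hx q (by
      rw [← h2]
      refine Finset.sum_congr rfl fun j _ => ?_
      rw [Rat.smul_def])
    refine ⟨p, ?_⟩
    have h7 : ∑ j, ((p j : ℝ) : ℂ) * ((x j : ℝ) : ℂ) = s := by
      rw [← h1]
      refine Finset.sum_congr rfl fun j _ => ?_
      rw [h5 j]
      simp
    have h8 : ((∑ j, p j • x j : ℝ) : ℂ) = (s : ℂ) := by
      rw [← h7]
      push_cast
      refine Finset.sum_congr rfl fun j _ => ?_
      rw [Rat.smul_def]
    exact_mod_cast h8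

end

section

variable {K : IntermediateField ℚ ℂ} [FiniteDimensional ℚ K]

/-- **Tuples of real numbers**, for a real lattice. -/
theorem main_real (hK : kL L ≤ K) (hL : ∀ w ∈ L.lattice, conj w ∈ L.lattice)
    (hc : ∀ a ∈ K, conj a ∈ K) {c : ℂ} (hcK : c ∈ K) (hci : c.im ≠ 0) (hq : ∀ a ∈ K, ∃ p q : ℚ, a = p + q * c)
    (S : Finset ℝ) (hS : ∀ s ∈ S, ClosedForm L s) (D : Set ℕ) (hD : D.Infinite) {U : Set ℝ} (hU : IsOpen U)
    (hne : U.Nonempty) (C : ℤ) :
    (∀ V : Submodule (kL L) ℂ, FiniteDimensional (kL L) V → df V ≤ C) ↔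
      ∀ n ∈ D, ∀ x : Fin n → ℝ, LinearIndependent ℚ x → (∀ j, x j ∈ U) →
        (∀ s ∈ S, s ∈ Submodule.span ℚ (range x)) →
        df (toK hK (Submodule.span K (range fun j => (x j : ℂ)))) ≤ C := by
  classical
  have hcc : conj c ≠ c := fun h => hci (Complex.conj_eq_iff_im.mp h)
  rw [main_stable hK hL hc (S.image (fun s : ℝ => (s : ℂ))) (fun z hz => by
    obtain ⟨s, hs, rfl⟩ := Finset.mem_image.mp hz
    exact hS s hs) (fun z hz => by
    obtain ⟨s, hs, rfl⟩ := Finset.mem_image.mp hz
    rw [Complex.conj_ofReal]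
    exact Finset.mem_image_of_mem _ hs) D hD C]
  constructor
  · intro h n hn x hx _ hxS
    have hli := (li_quad hci hq x).mp hx
    have hfd : FiniteDimensional K (Submodule.span K (range fun j => (x j : ℂ))) :=
      FiniteDimensional.span_of_finite K (finite_range _)
    refine h _ hfd ?_ ?_ ?_
    · rw [finrank_span_eq_card hli, Fintype.card_fin]
      exact hn
    · intro z hz
      obtain ⟨s, hs, rfl⟩ := Finset.mem_image.mp (Finset.mem_coe.mp hz)
      exact (span_quad hci hq x hx s).mp (hxS s hs)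
    · intro z hz
      obtain ⟨g, hg⟩ := (Submodule.mem_span_range_iff_exists_fun K).mp hz
      refine (Submodule.mem_span_range_iff_exists_fun K).mpr ⟨fun j => ⟨conj (g j : ℂ), hc _ (g j).2⟩, ?_⟩
      rw [← hg, map_sum]
      refine Finset.sum_congr rfl fun j _ => ?_
      change conj (g j : ℂ) * ((x j : ℝ) : ℂ) = conj ((g j : ℂ) * ((x j : ℝ) : ℂ))
      rw [map_mul, Complex.conj_ofReal]
  · intro h V hV hD' hSV hVc
    obtain ⟨x, h1, h2, h3⟩ := exists_real_basis hc hcK hcc hV hVc hU hne
    have hx := (li_quad hci hq x).mpr h2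
    have h4 := h _ hD' x hx h1 (fun s hs => by
      rw [span_quad hci hq x hx, h3]
      exact hSV (Finset.mem_coe.mpr (Finset.mem_image_of_mem _ hs)))
    rwa [h3] at h4

end

end Pool.Agent.Q257.RF
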