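import Pool.Agent.Q257.RF.B
import Pool.Agent.TH89.J2168

/-!
# Elliptic Schanuel: the explicit real forms
-/

set_option autoImplicit false

open Matroid Set Module
open scoped PeriodPair ComplexConjugate

noncomputable section

namespace Pool.Agent.Q257.RF

open H667R3 Pool.Agent.W245.EB Pool.Agent.TH813.Ell
open Pool.Agent.TH813.Core
open Pool.Agent.TH813.Rel (rk_le_of_subset_cl subset_cl)
open Pool.Agent.Y776.Et (ζ)
open Pool.Agent.Q280.ML
open Q88.ETO (M cj cj_apply bar mem_bar fin_bar finrank_bar cl_mono cl_alg cl_of_isAlgebraic toK mem_toK fin_toK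
  clK mem_clK finrank_add_span sup_span_of_mem exists_algebraic_notMem finrank_toK')

variable {L : PeriodPair}

/-- the lattice of the Gaussian integers -/
def Gauss : PeriodPair where
  ω₁ := 1
  ω₂ := Complex.I
  indep := by
    rw [LinearIndependent.pair_iff]
    intro s t h
    have h1 := congrArg Complex.re h
    have h2 := congrArg Complex.im h
    simp at h1 h2
    exact ⟨h1, h2⟩

theorem Gauss_mult : ∀ w ∈ Gauss.lattice, Complex.I * w ∈ Gauss.lattice := by
  intro w hw
  obtain ⟨a, b, h⟩ := PeriodPair.mem_lattice.1 hw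
  refine PeriodPair.mem_lattice.2 ⟨-b, a, ?_⟩
  rw [← h]
  change ((-b : ℤ) : ℂ) * 1 + (a : ℂ) * Complex.I = Complex.I * ((a : ℂ) * 1 + (b : ℂ) * Complex.I)
  push_cast
  linear_combination -(b : ℂ) * Complex.I_mul_I

/-- the Gaussian numbers -/
abbrev QI : IntermediateField ℚ ℂ := kL Gauss

theorem I_mem : Complex.I ∈ QI := mult_mem_kL Gauss_mult

theorem conj_I_ne : conj Complex.I ≠ Complex.I := by
  intro h
  have := Complex.conj_eq_iff_im.mp h
  simp at this

theorem QI_quad : ∀ a ∈ QI, ∃ p q : ℚ, a = p + q * Complex.I := fun _ ha => kL_eq Gauss_mult conj_I_ne ha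

theorem finrank_of_nonreal (L : PeriodPair) {c : ℂ} (hc : c ∈ kL L) (hci : c.im ≠ 0) : finrank ℚ (kL L) = 2 := by
  have h1 := finrank_kL L
  have := h1.1
  have h2 : 0 < finrank ℚ (kL L) := finrank_pos
  have h3 : finrank ℚ (kL L) ≠ 1 := by
    intro h
    have h4 := IntermediateField.finrank_eq_one_iff.mp h
    rw [h4] at hc
    obtain ⟨q, rfl⟩ := IntermediateField.mem_bot.1 hc
    apply hci
    change ((q : ℂ)).im = 0
    simp
  omega

theorem finrank_kL_of_int (h : ∀ c : ℂ, (∀ w ∈ L.lattice, c * w ∈ L.lattice) → ∃ m : ℤ, c = m) :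
    kL L = ⊥ := by
  rw [eq_bot_iff]
  intro c hc
  obtain ⟨n, hn, h1⟩ := mem_kL.1 hc
  obtain ⟨m, hm⟩ := h _ h1
  refine IntermediateField.mem_bot.2 ⟨(m : ℚ) / n, ?_⟩
  have hn0 : (n : ℂ) ≠ 0 := by exact_mod_cast hn.ne'
  change (((m : ℚ) / n : ℚ) : ℂ) = c
  push_cast
  rw [div_eq_iff hn0, ← hm]
  ring

/-- the numbers of real points, without multiplications -/
def ptsI (L : PeriodPair) {n : ℕ} (x : Fin n → ℝ) : Set ℂ :=
  {z | ∃ j, z = x j ∨ z = ℘[L] (x j) ∨ z = ζ L (x j) ∨ z = ℘[L] (Complex.I * x j) ∨ z = ζ L (Complex.I * x j)}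

/-- the points `x_j` and `i x_j` -/
def dbl {n : ℕ} (x : Fin n → ℝ) : Fin (n + n) → ℂ :=
  Fin.append (fun j => (x j : ℂ)) (fun j => Complex.I * (x j : ℂ))

theorem span_dbl (hK : kL L ≤ QI) {n : ℕ} (x : Fin n → ℝ) :
    Submodule.span (kL L) (range (dbl x)) = toK hK (Submodule.span QI (range fun j => (x j : ℂ))) := by
  apply le_antisymm
  · rw [Submodule.span_le]
    rintro _ ⟨j, rfl⟩
    refine Fin.addCases (fun j => ?_) (fun j => ?_) j
    · unfold dbl
      rw [Fin.append_left]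
      exact Submodule.subset_span (s := range fun j => (x j : ℂ)) (R := QI) ⟨j, rfl⟩
    · unfold dbl
      rw [Fin.append_right]
      exact Submodule.smul_mem (Submodule.span QI (range fun j => (x j : ℂ))) (⟨Complex.I, I_mem⟩ : QI)
        (Submodule.subset_span ⟨j, rfl⟩)
  · intro z hz
    obtain ⟨g, hg⟩ := (Submodule.mem_span_range_iff_exists_fun QI).mp (mem_toK.mp hz)
    rw [← hg]
    refine Submodule.sum_mem _ fun j _ => ?_
    obtain ⟨p, q, hpq⟩ := QI_quad (g j) (g j).2
    have h1 : g j • (x j : ℂ) = ((p : ℚ) : kL L) • dbl x (Fin.castAdd n j) +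
        ((q : ℚ) : kL L) • dbl x (Fin.natAdd n j) := by
      unfold dbl
      rw [Fin.append_left, Fin.append_right]
      change (g j : ℂ) * (x j : ℂ) = (((p : ℚ) : kL L) : ℂ) * (x j : ℂ) +
        (((q : ℚ) : kL L) : ℂ) * (Complex.I * (x j : ℂ))
      rw [hpq]
      have e1 : ∀ r : ℚ, (((r : ℚ) : kL L) : ℂ) = (r : ℂ) := fun r => map_ratCast (algebraMap (kL L) ℂ) r
      rw [e1, e1]
      ring
    rw [h1]
    exact Submodule.add_mem _ (Submodule.smul_mem _ _ (Submodule.subset_span ⟨_, rfl⟩))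
      (Submodule.smul_mem _ _ (Submodule.subset_span ⟨_, rfl⟩))

theorem dbl_off {n : ℕ} {x : Fin n → ℝ} (hx : ∀ j, x j ∈ Off L) : ∀ i, dbl x i ∉ L.lattice := by
  intro i
  refine Fin.addCases (fun j => ?_) (fun j => ?_) i
  · unfold dbl
    rw [Fin.append_left]
    exact (hx j).1
  · unfold dbl
    rw [Fin.append_right]
    exact (hx j).2

theorem rk_dbl {n : ℕ} (x : Fin n → ℝ) :
    M.eRk ({L.g₂, L.g₃} ∪ pts L (dbl x)) = M.eRk ({L.g₂, L.g₃} ∪ ptsI L x) := by
  apply le_antisymm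
  · refine rk_le_of_subset_cl (union_subset (fun z hz => subset_cl _ (Or.inl hz)) ?_)
    intro z hz
    obtain ⟨i, hi⟩ := mem_iUnion.mp hz
    revert hi
    refine Fin.addCases (fun j => ?_) (fun j => ?_) i
    · unfold dbl
      rw [Fin.append_left]
      rintro (rfl | rfl | hz)
      · exact subset_cl _ (Or.inr ⟨j, Or.inl rfl⟩)
      · exact subset_cl _ (Or.inr ⟨j, Or.inr (Or.inl rfl)⟩)
      · rw [mem_singleton_iff.mp hz]
        exact subset_cl _ (Or.inr ⟨j, Or.inr (Or.inr (Or.inl rfl))⟩)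
    · unfold dbl
      rw [Fin.append_right]
      rintro (rfl | rfl | hz)
      · have h1 : (x j : ℂ) ∈ clK QI ({L.g₂, L.g₃} ∪ ptsI L x) := by
          rw [mem_clK]
          exact subset_cl _ (Or.inr ⟨j, Or.inl rfl⟩)
        exact mem_clK.mp ((clK QI ({L.g₂, L.g₃} ∪ ptsI L x)).smul_mem (⟨Complex.I, I_mem⟩ : QI) h1)
      · exact subset_cl _ (Or.inr ⟨j, Or.inr (Or.inr (Or.inr (Or.inl rfl)))⟩)
      · rw [mem_singleton_iff.mp hz]
        exact subset_cl _ (Or.inr ⟨j, Or.inr (Or.inr (Or.inr (Or.inr rfl)))⟩)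
  · refine M.eRk_mono (union_subset_union_right _ ?_)
    rintro z ⟨j, rfl | rfl | rfl | rfl | rfl⟩
    · refine mem_iUnion.mpr ⟨Fin.castAdd n j, ?_⟩
      unfold dbl
      rw [Fin.append_left]
      exact Or.inl rfl
    · refine mem_iUnion.mpr ⟨Fin.castAdd n j, ?_⟩
      unfold dbl
      rw [Fin.append_left]
      exact Or.inr (Or.inl rfl)
    · refine mem_iUnion.mpr ⟨Fin.castAdd n j, ?_⟩
      unfold dbl
      rw [Fin.append_left]
      exact Or.inr (Or.inr rfl)
    · refine mem_iUnion.mpr ⟨Fin.natAdd n j, ?_⟩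
      unfold dbl
      rw [Fin.append_right]
      exact Or.inr (Or.inl rfl)
    · refine mem_iUnion.mpr ⟨Fin.natAdd n j, ?_⟩
      unfold dbl
      rw [Fin.append_right]
      exact Or.inr (Or.inr rfl)

instance finQI : FiniteDimensional ℚ QI := (finrank_kL Gauss).1

/-- **The real form, without complex multiplication.** -/
theorem real_nonCM (hL : ∀ w ∈ L.lattice, conj w ∈ L.lattice)
    (hCM : ∀ c : ℂ, (∀ w ∈ L.lattice, c * w ∈ L.lattice) → ∃ m : ℤ, c = m)
    (S : Finset ℝ) (hS : ∀ s ∈ S, ClosedForm L s) (D : Set ℕ) (hD : D.Infinite) {U : Set ℝ} (hU : IsOpen U)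
    (hne : U.Nonempty) (C : ℕ) :
    (∀ V : Submodule (kL L) ℂ, FiniteDimensional (kL L) V → df V ≤ C) ↔
      ∀ n ∈ D, ∀ x : Fin n → ℝ, LinearIndependent ℚ x → (∀ j, x j ∈ U ∧ x j ∈ Off L) →
        (∀ s ∈ S, s ∈ Submodule.span ℚ (range x)) →
        ((4 * n : ℕ) : ℕ∞) ≤ M.eRk ({L.g₂, L.g₃} ∪ ptsI L x) + C := by
  have hbot := finrank_kL_of_int hCM
  have hK : kL L ≤ QI := by rw [hbot]; exact bot_le
  rw [main_real hK hL (fun a ha => conj_mem_kL ha) I_mem (by simp) QI_quad S hS D hD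
    (U := U ∩ Off L) (hU.inter isOpen_Off) (exists_off hU hne) C]
  refine forall_congr' fun n => imp_congr_right fun _ => forall_congr' fun x => imp_congr_right fun hx =>
    imp_congr_right fun hxU => imp_congr_right fun _ => ?_
  have hli := (li_quad (K := QI) (c := Complex.I) (by simp) QI_quad x).mp hx
  have hfd : FiniteDimensional QI (Submodule.span QI (range fun j => (x j : ℂ))) :=
    FiniteDimensional.span_of_finite QI (finite_range _)
  have hoff := dbl_off (L := L) (fun j => (hxU j).2)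
  have h1 : finrank QI (Submodule.span QI (range fun j => (x j : ℂ))) = n := by
    rw [finrank_span_eq_card hli, Fintype.card_fin]
  have h2 : finrank ℚ QI = 2 := finrank_of_nonreal Gauss I_mem (by simp)
  have h3 : finrank ℚ (kL L) = 1 := by rw [hbot]; exact IntermediateField.finrank_bot
  have h4 : finrank (kL L) (toK hK (Submodule.span QI (range fun j => (x j : ℂ)))) = 2 * n := by
    rw [finrank_toK' _ hK, h1, h2, h3, Nat.div_one]
  rw [df_le_iff (fin_toK _ hK), h4, ← span_dbl hK, ← rk_dbl x]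
  have h5 := rk_span (L := L) hoff
  have h6 : 2 * (2 * n) = 4 * n := by ring
  rw [h6, h5]

/-- **The real form, with complex multiplication.** -/
theorem real_CM (hL : ∀ w ∈ L.lattice, conj w ∈ L.lattice) {c : ℂ} (hci : c.im ≠ 0)
    (hCM : ∀ w ∈ L.lattice, c * w ∈ L.lattice)
    (S : Finset ℝ) (hS : ∀ s ∈ S, ClosedForm L s) (D : Set ℕ) (hD : D.Infinite) {U : Set ℝ} (hU : IsOpen U)
    (hne : U.Nonempty) (C : ℕ) :
    (∀ V : Submodule (kL L) ℂ, FiniteDimensional (kL L) V → df V ≤ C) ↔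
      ∀ n ∈ D, ∀ x : Fin n → ℝ, LinearIndependent ℚ x → (∀ j, x j ∈ U ∧ x j ∈ Off L) →
        (∀ s ∈ S, s ∈ Submodule.span ℚ (range x)) →
        ((2 * n : ℕ) : ℕ∞) ≤ M.eRk ({L.g₂, L.g₃} ∪ pts L (fun j => (x j : ℂ))) + C := by
  have hf := (finrank_kL L).1
  have hcc : conj c ≠ c := fun h => hci (Complex.conj_eq_iff_im.mp h)
  have hq : ∀ a ∈ kL L, ∃ p q : ℚ, a = p + q * c := fun _ ha => kL_eq hCM hcc ha
  rw [main_real (K := kL L) le_rfl hL (fun a ha => conj_mem_kL ha) (mult_mem_kL hCM) hci hq S hS D hD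
    (U := U ∩ Off L) (hU.inter isOpen_Off) (exists_off hU hne) C]
  refine forall_congr' fun n => imp_congr_right fun _ => forall_congr' fun x => imp_congr_right fun hx =>
    imp_congr_right fun hxU => imp_congr_right fun _ => ?_
  have hli := (li_quad (K := kL L) (c := c) hci hq x).mp hx
  have e1 : toK (L := L) (K := kL L) le_rfl (Submodule.span (kL L) (range fun j => (x j : ℂ))) =
      Submodule.span (kL L) (range fun j => (x j : ℂ)) := by
    ext z
    rw [mem_toK]
  have hfd : FiniteDimensional (kL L) (Submodule.span (kL L) (range fun j => (x j : ℂ))) :=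
    FiniteDimensional.span_of_finite (kL L) (finite_range _)
  have h1 : finrank (kL L) (Submodule.span (kL L) (range fun j => (x j : ℂ))) = n := by
    rw [finrank_span_eq_card hli, Fintype.card_fin]
  rw [e1, df_le_iff hfd, h1]
  have h5 := rk_span (L := L) (p := fun j => (x j : ℂ)) (fun j => (hxU j).2.1)
  rw [h5]

end Pool.Agent.Q257.RF
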